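import Pool.Agent.helper7.AL.SpecL

/-!
# Row ba:LAD of project AL (MP_bf63dc_nt)

The assembly of theorem L (the ladder).
-/

set_option autoImplicit false

namespace Pool.Agent.LD

open Finset Pool.Agent.helper85.FC Pool.Agent.AT

/-- The speeds of the copies. -/
theorem LAD_v {m : ℕ} (μ : Fin m → ℕ) (hμ : ∀ p, 0 < μ p) :
    ∃ v : Fin m → ℕ, ∀ p q, p ≠ q → μ q * v p ≠ μ p * v q := by
  have hVμ : ∀ p, μ p < (∑ p, μ p) + 1 := fun p => by
    have := Finset.single_le_sum (f := μ) (fun _ _ => Nat.zero_le _) (Finset.mem_univ p)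
    omega
  generalize (∑ p, μ p) + 1 = V at hVμ
  have key : ∀ p q : Fin m, p < q → μ q * V ^ (p : ℕ) ≠ μ p * V ^ (q : ℕ) := by
    intro p q hpq h
    have hlt : (p : ℕ) < q := hpq
    obtain ⟨d, hd⟩ : ∃ d, (q : ℕ) = p + 1 + d := ⟨q - (p + 1), by omega⟩
    rw [hd, pow_add, pow_add, pow_one] at h
    have hV0 : 0 < V := lt_of_le_of_lt (Nat.zero_le _) (hVμ q)
    have hpos : 0 < V ^ (p : ℕ) := pow_pos hV0 _
    have h2 : μ q = μ p * (V * V ^ d) := by
      apply Nat.eq_of_mul_eq_mul_right hpos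
      rw [h]; ring
    have h3 : V * 1 ≤ V * V ^ d := Nat.mul_le_mul_left _ (Nat.one_le_pow _ _ hV0)
    have h4 : 1 * (V * V ^ d) ≤ μ p * (V * V ^ d) := Nat.mul_le_mul_right _ (hμ p)
    have := hVμ q
    omega
  refine ⟨fun p => V ^ (p : ℕ), fun p q hpq => ?_⟩
  rcases lt_or_gt_of_ne hpq with h | h
  · exact key p q h
  · exact fun hh => key q p h hh.symm

/-- The linear form in `t`. -/
theorem LAD_lin (si sj μp μq Q vp vq : ℕ) (h₀ x x' : ℤ) (t : ℕ) (hpos : 0 < Nat.gcd (si * μp) (sj * μq)) :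
    (((sj * μq : ℕ) : ℤ) * (si * (h₀ + Q * (vp * t)) + x) - ((si * μp : ℕ) : ℤ) * (sj * (h₀ + Q * (vq * t)) + x')) /
        (Nat.gcd (si * μp) (sj * μq) : ℕ) =
      (((sj * μq / Nat.gcd (si * μp) (sj * μq) : ℕ) : ℤ) * (si * (Q * vp)) -
        ((si * μp / Nat.gcd (si * μp) (sj * μq) : ℕ) : ℤ) * (sj * (Q * vq))) * t +
      (((sj * μq / Nat.gcd (si * μp) (sj * μq) : ℕ) : ℤ) * (si * h₀ + x) -
        ((si * μp / Nat.gcd (si * μp) (sj * μq) : ℕ) : ℤ) * (sj * h₀ + x')) := by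
  have h1 : Nat.gcd (si * μp) (sj * μq) * (sj * μq / Nat.gcd (si * μp) (sj * μq)) = sj * μq :=
    Nat.mul_div_cancel' (Nat.gcd_dvd_right _ _)
  have h2 : Nat.gcd (si * μp) (sj * μq) * (si * μp / Nat.gcd (si * μp) (sj * μq)) = si * μp :=
    Nat.mul_div_cancel' (Nat.gcd_dvd_left _ _)
  generalize Nat.gcd (si * μp) (sj * μq) = G at hpos h1 h2 ⊢
  generalize sj * μq / G = a at h1 ⊢
  generalize si * μp / G = b at h2 ⊢
  have hG : (G : ℤ) ≠ 0 := by exact_mod_cast hpos.ne'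
  apply Int.ediv_eq_of_eq_mul_right hG
  rw [← h1, ← h2]
  push_cast
  ring

/-- The leading coefficient is not zero. -/
theorem LAD_ne (si sj μp μq Q vp vq : ℕ) (hsi : 0 < si) (hsj : 0 < sj) (hQ : 0 < Q) (hv : μq * vp ≠ μp * vq) :
    (((sj * μq / Nat.gcd (si * μp) (sj * μq) : ℕ) : ℤ) * (si * (Q * vp)) -
        ((si * μp / Nat.gcd (si * μp) (sj * μq) : ℕ) : ℤ) * (sj * (Q * vq))) ≠ 0 := by
  have h1 : Nat.gcd (si * μp) (sj * μq) * (sj * μq / Nat.gcd (si * μp) (sj * μq)) = sj * μq :=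
    Nat.mul_div_cancel' (Nat.gcd_dvd_right _ _)
  have h2 : Nat.gcd (si * μp) (sj * μq) * (si * μp / Nat.gcd (si * μp) (sj * μq)) = si * μp :=
    Nat.mul_div_cancel' (Nat.gcd_dvd_left _ _)
  generalize Nat.gcd (si * μp) (sj * μq) = G at h1 h2 ⊢
  generalize sj * μq / G = a at h1 ⊢
  generalize si * μp / G = b at h2 ⊢
  intro h
  apply hv
  have h3 : (a : ℤ) * (si * (Q * vp)) = b * (sj * (Q * vq)) := by linarith
  have h4 : a * (si * (Q * vp)) = b * (sj * (Q * vq)) := by exact_mod_cast h3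
  have h5 : (si * sj * Q) * (μq * vp) = (si * sj * Q) * (μp * vq) := by
    calc (si * sj * Q) * (μq * vp) = (sj * μq) * (si * (Q * vp)) := by ring
      _ = G * (a * (si * (Q * vp))) := by rw [← h1]; ring
      _ = G * (b * (sj * (Q * vq))) := by rw [h4]
      _ = (si * μp) * (sj * (Q * vq)) := by rw [← h2]; ring
      _ = (si * sj * Q) * (μp * vq) := by ring
  exact Nat.eq_of_mul_eq_mul_left (Nat.mul_pos (Nat.mul_pos hsi hsj) hQ) h5

theorem LAD (hBOX : ∀ k, 1 ≤ k → BOXk k) (hPRT : PRT_stmt) (hLPG : LPG_stmt) (hLHZ : LHZ_stmt)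
    (hLJA : LJA_stmt) (hLJI : LJI_stmt) (hLJH : LJH_stmt) (hLCO : LCO_stmt) : LAD_stmt := by
  classical
  intro k m hk hm
  obtain ⟨K', hK'⟩ := hBOX (m * k) (Nat.mul_pos hm hk)
  have hW : 0 < (m * k * (K' + 1)).factorial := Nat.factorial_pos _
  refine ⟨(K' + 1) * (m * k * (K' + 1)).factorial, Nat.mul_pos (Nat.succ_pos _) hW, fun s hs => ?_⟩
  by_cases hA : BoxT (th m) k s ((K' + 1) * (m * k * (K' + 1)).factorial)
  · exact Or.inl hA
  right
  intro μ hμ
  obtain ⟨H, hHc, hHW, hHb⟩ := hLPG (th m) k (K' + 1) (m * k * (K' + 1)).factorial s hW hA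
  -- small primes divide W
  have hWp : ∀ p : ℕ, p.Prime → p ≤ m * k * (K' + 1) → p ∣ (m * k * (K' + 1)).factorial := fun p hp hle =>
    (Nat.Prime.dvd_factorial hp).2 hle
  generalize (m * k * (K' + 1)).factorial = W at hW hHW hWp
  have hQ : 0 < W * ∏ p, μ p := Nat.mul_pos hW (Finset.prod_pos fun p _ => hμ p)
  have hμQ : ∀ p', μ p' ∣ W * ∏ p, μ p := fun p' =>
    Dvd.dvd.mul_left (Finset.dvd_prod_of_mem μ (Finset.mem_univ p')) _
  have hWQ : W ∣ W * ∏ p, μ p := Dvd.intro _ rfl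
  generalize (W * ∏ p, μ p) = Q at hQ hμQ hWQ
  obtain ⟨h₀, hh₀⟩ := hLHZ k (K' + 1) Q s H (Nat.succ_pos _) hQ hHc
    (by
      intro p hp hle i x hx y hy
      have h1 : k * (K' + 1) ≤ m * k * (K' + 1) :=
        Nat.mul_le_mul_right _ (Nat.le_mul_of_pos_left k hm)
      exact dvd_trans (Int.natCast_dvd_natCast.2 (hWp p hp (hle.trans h1))) (hHW i x hx y hy))
    (fun h hh => (hHb h hh).1)
  obtain ⟨v, hv⟩ := LAD_v μ hμ
  obtain ⟨t₀, ht₀⟩ := hLJI k m Q s H μ v h₀ hQ hs hμ hv (fun y hy => (hHb y hy).2.1)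
  -- the counting lemma
  have hcount := hLCO {e : ((Fin m × Fin m) × (Fin k × Fin k)) ×
      ({x // x ∈ Finset.univ.biUnion H} × {x // x ∈ Finset.univ.biUnion H}) // e.1.1.1 ≠ e.1.1.2}
    (fun e =>
      (((s e.1.1.2.2 * μ e.1.1.1.2 / Nat.gcd (s e.1.1.2.1 * μ e.1.1.1.1) (s e.1.1.2.2 * μ e.1.1.1.2) : ℕ) : ℤ) *
          (s e.1.1.2.1 * (Q * v e.1.1.1.1)) -
        ((s e.1.1.2.1 * μ e.1.1.1.1 / Nat.gcd (s e.1.1.2.1 * μ e.1.1.1.1) (s e.1.1.2.2 * μ e.1.1.1.2) : ℕ) : ℤ) *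
          (s e.1.1.2.2 * (Q * v e.1.1.1.2))))
    (fun e =>
      (((s e.1.1.2.2 * μ e.1.1.1.2 / Nat.gcd (s e.1.1.2.1 * μ e.1.1.1.1) (s e.1.1.2.2 * μ e.1.1.1.2) : ℕ) : ℤ) *
          (s e.1.1.2.1 * h₀ + e.1.2.1.1) -
        ((s e.1.1.2.1 * μ e.1.1.1.1 / Nat.gcd (s e.1.1.2.1 * μ e.1.1.1.1) (s e.1.1.2.2 * μ e.1.1.1.2) : ℕ) : ℤ) *
          (s e.1.1.2.2 * h₀ + e.1.2.2.1)))
    (fun e c => TrueCase
      (s e.1.1.2.2 * μ e.1.1.1.2 / Nat.gcd (s e.1.1.2.1 * μ e.1.1.1.1) (s e.1.1.2.2 * μ e.1.1.1.2))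
      (s e.1.1.2.1 * μ e.1.1.1.1 / Nat.gcd (s e.1.1.2.1 * μ e.1.1.1.1) (s e.1.1.2.2 * μ e.1.1.1.2)) c)
    t₀
    (fun e => LAD_ne _ _ _ _ _ _ _ (hs _) (hs _) hQ (hv _ _ e.2))
    (by
      intro t ht
      -- the box of the copies
      have hbox := hK' (fun τ => (H (finProdFinEquiv.symm τ).2).image (fun x : ℤ =>
          ((s (finProdFinEquiv.symm τ).2 * μ (finProdFinEquiv.symm τ).1 : ℕ),
            (s (finProdFinEquiv.symm τ).2 : ℤ) * (h₀ + Q * (v (finProdFinEquiv.symm τ).1 * t)) + x)))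
        (by
          intro τ
          rw [Finset.card_image_of_injective, hHc]
          · exact Nat.le_succ _
          · intro x y hxy
            have := congrArg Prod.snd hxy
            simpa using this)
        (by
          intro τ f hf
          obtain ⟨x, -, rfl⟩ := Finset.mem_image.1 hf
          exact Nat.mul_pos (hs _) (hμ _))
      -- every tuple in the box is a copy
      have hcop : ∀ f ∈ Fintype.piFinset (fun τ : Fin (m * k) => (H (finProdFinEquiv.symm τ).2).image (fun x : ℤ =>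
          ((s (finProdFinEquiv.symm τ).2 * μ (finProdFinEquiv.symm τ).1 : ℕ),
            (s (finProdFinEquiv.symm τ).2 : ℤ) * (h₀ + Q * (v (finProdFinEquiv.symm τ).1 * t)) + x))),
          ∃ x : Fin m → Fin k → ℤ, (∀ p, x p ∈ Fintype.piFinset H) ∧
            f = cop m s μ (fun p => h₀ + Q * (v p * t)) x := by
        intro f hf
        have hf' : ∀ τ : Fin (m * k), ∃ x ∈ H (finProdFinEquiv.symm τ).2,
            ((s (finProdFinEquiv.symm τ).2 * μ (finProdFinEquiv.symm τ).1 : ℕ),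
            (s (finProdFinEquiv.symm τ).2 : ℤ) * (h₀ + Q * (v (finProdFinEquiv.symm τ).1 * t)) + x) = f τ := fun τ =>
          Finset.mem_image.1 (Fintype.mem_piFinset.1 hf τ)
        choose g hg1 hg2 using hf'
        refine ⟨fun p i => g (finProdFinEquiv (p, i)), fun p => ?_, ?_⟩
        · rw [Fintype.mem_piFinset]
          intro i
          have := hg1 (finProdFinEquiv (p, i))
          rwa [Equiv.symm_apply_apply] at this
        · funext τ
          rw [← hg2 τ]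
          simp only [cop, Prod.mk.eta, Equiv.apply_symm_apply]
      obtain ⟨f, hf, hMany⟩ := hbox
        (by
          intro f hf
          obtain ⟨x, hx, rfl⟩ := hcop f hf
          refine ⟨?_, ht₀ t ht x hx⟩
          refine hLJA k m Q s H μ _ h₀ ?_ hμQ ?_ hh₀ (fun y hy => (hHb y hy).1) x hx
          · intro p hp hle
            refine dvd_trans (hWp p hp (hle.trans ?_)) hWQ
            exact Nat.le_mul_of_pos_right _ (Nat.succ_pos _)
          · intro p'
            rw [add_sub_cancel_left]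
            exact Dvd.intro _ rfl)
      obtain ⟨x, hx, rfl⟩ := hcop f hf
      obtain ⟨p, q, hpq, i, j, hinf⟩ := hLJH k m s μ (fun p => h₀ + Q * (v p * t)) x hμ
        (fun p => (hHb (x p) (hx p)).2.2) hMany
      have hadm : Adm (cop m s μ (fun p => h₀ + Q * (v p * t)) x) := by
        refine hLJA k m Q s H μ _ h₀ ?_ hμQ ?_ hh₀ (fun y hy => (hHb y hy).1) x hx
        · intro p hp hle
          refine dvd_trans (hWp p hp (hle.trans ?_)) hWQ
          exact Nat.le_mul_of_pos_right _ (Nat.succ_pos _)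
        · intro p'
          rw [add_sub_cancel_left]
          exact Dvd.intro _ rfl
      have hinj := ht₀ t ht x hx
      have ec : ∀ p i, cop m s μ (fun p => h₀ + Q * (v p * t)) x (finProdFinEquiv (p, i)) =
          (s i * μ p, (s i : ℤ) * (h₀ + Q * (v p * t)) + x p i) := by
        intro p i
        simp only [cop, Equiv.symm_apply_apply]
      have hfg : ((s i * μ p : ℕ), (s i : ℤ) * (h₀ + Q * (v p * t)) + x p i) ≠
          ((s j * μ q : ℕ), (s j : ℤ) * (h₀ + Q * (v q * t)) + x q j) := by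
        intro h
        rw [← ec p i, ← ec q j] at h
        have h1 := finProdFinEquiv.injective (hinj h)
        exact hpq (congrArg Prod.fst h1)
      have hpair := hPRT ((s i * μ p : ℕ), (s i : ℤ) * (h₀ + Q * (v p * t)) + x p i)
        ((s j * μ q : ℕ), (s j : ℤ) * (h₀ + Q * (v q * t)) + x q j)
        (Nat.mul_pos (hs i) (hμ p)) (Nat.mul_pos (hs j) (hμ q)) hfg
        (by
          intro l hl
          obtain ⟨n, hn⟩ := hadm l hl
          refine ⟨n, ?_⟩
          rw [Fin.forall_fin_two]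
          have h1 := hn (finProdFinEquiv (p, i))
          have h2 := hn (finProdFinEquiv (q, j))
          rw [ec] at h1 h2
          exact ⟨h1, h2⟩) hinf
      have hmem : ∀ p i, x p i ∈ Finset.univ.biUnion H := fun p i =>
        Finset.mem_biUnion.2 ⟨i, Finset.mem_univ i, Fintype.mem_piFinset.1 (hx p) i⟩
      refine ⟨⟨(((p, q), (i, j)), (⟨x p i, hmem p i⟩, ⟨x q j, hmem q j⟩)), hpq⟩, ?_⟩
      have hG : 0 < Nat.gcd (s i * μ p) (s j * μ q) := Nat.gcd_pos_of_pos_left _ (Nat.mul_pos (hs i) (hμ p))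
      have hlin := LAD_lin (s i) (s j) (μ p) (μ q) Q (v p) (v q) h₀ (x p i) (x q j) t hG
      unfold Pair at hpair
      dsimp only at hpair ⊢
      rw [hlin] at hpair
      exact hpair)
  obtain ⟨e, δ, hδ, he⟩ := hcount
  refine ⟨e.1.1.1.1, e.1.1.1.2, e.2, e.1.1.2.1, e.1.1.2.2, δ, hδ, ?_⟩
  unfold Lowest Ample
  rw [Nat.gcd_comm, mul_comm (μ e.1.1.1.2), mul_comm (μ e.1.1.1.1)]
  exact he

end Pool.Agent.LD
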